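import Pool.Agent.H.MP_1304b2_co.Defs

namespace Pool.Agent.H.MP_1304b2_co

open SimpleGraph

variable {V : Type} [DecidableEq V] {G : SimpleGraph V} {c : V → Bool}

omit [DecidableEq V] in
theorem tow_unique (hG : G.IsTree) {r y a b : V} (ha : G.Adj y a) (hb : G.Adj y b) (h1 : G.dist r a < G.dist r y)
    (h2 : G.dist r b < G.dist r y) : a = b := by
  classical
  obtain ⟨p, hp, hp'⟩ := hG.connected.exists_path_of_dist r a
  obtain ⟨q, hq, hq'⟩ := hG.connected.exists_path_of_dist r b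
  have e1 := hG.dist_eq_dist_add_one_of_adj r ha
  have e2 := hG.dist_eq_dist_add_one_of_adj r hb
  have hp2 : (p.concat ha.symm).IsPath := Walk.isPath_of_length_eq_dist _ (by rw [Walk.length_concat]; omega)
  have hq2 : (q.concat hb.symm).IsPath := Walk.isPath_of_length_eq_dist _ (by rw [Walk.length_concat]; omega)
  have := hG.isAcyclic.path_unique ⟨_, hp2⟩ ⟨_, hq2⟩
  have h3 := congrArg (fun w : G.Path r y => w.1.penultimate) this
  simpa using h3

omit [DecidableEq V] in
theorem tow_exists (hG : G.IsTree) {r v : V} (h : v ≠ r) : ∃ q, G.Adj v q ∧ G.dist r q < G.dist r v := by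
  obtain ⟨p, hp⟩ := hG.connected.exists_walk_length_eq_dist v r
  cases p with
  | nil => exact absurd rfl h
  | cons h1 p =>
    refine ⟨_, h1, ?_⟩
    have := dist_le p
    rw [Walk.length_cons] at hp
    rw [dist_comm, dist_comm (u := r)]
    omega

def Conv (G : SimpleGraph V) (S : Finset V) : Prop :=
  ∀ v ∈ S, ∀ r ∈ S, ∀ q, G.Adj v q → G.dist r q < G.dist r v → q ∈ S

theorem Conv.erase (hG : G.IsTree) {S : Finset V} (h : Conv G S) {l : V} (hl : Leaf G S l) : Conv G (S.erase l) := by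
  intro v hv r hr q h1 h2
  rw [Finset.mem_erase] at *
  have hq := h v hv.2 r hr.2 q h1 h2
  refine ⟨?_, hq⟩
  rintro rfl
  obtain ⟨q', h3, h4⟩ := tow_exists hG hr.1.symm
  have := hl v hv.2 q' (h q hq r hr.2 q' h3 h4) h1.symm h3
  subst this
  omega

omit [DecidableEq V] in
theorem Clean.child {S : Finset V} {u p y : V} (h : Clean G c S u p) (hy : y ∈ S) (ha : G.Adj u y) (hp : y ≠ p) :
    Clean G c S y u := by
  cases h with
  | mk _ _ h1 _ => exact h1 y hy ha hp

omit [DecidableEq V] in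
theorem Clean.col {S : Finset V} {u p y z : V} (h : Clean G c S u p) (hy : y ∈ S) (ha : G.Adj u y) (hp : y ≠ p)
    (hc : c y = c u) (hz : z ∈ S) (hb : G.Adj y z) (hu : z ≠ u) : c z = c y := by
  cases h with
  | mk _ _ _ h2 => exact h2 y hy ha hp hc z hz hb hu

omit [DecidableEq V] in
theorem Clean.mono {S S' : Finset V} (hS : S' ⊆ S) {u p : V} (h : Clean G c S u p) : Clean G c S' u p := by
  induction h with
  | mk u p _ h2 ih => exact ⟨_, _, fun y hy => ih y (hS hy), fun y hy a b d z hz => h2 y (hS hy) a b d z (hS hz)⟩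

omit [DecidableEq V] in
theorem clean_leaf {S : Finset V} {l a : V} (hl : Leaf G S l) (ha : a ∈ S) (h : G.Adj l a) : Clean G c S l a :=
  ⟨_, _, fun y hy h1 h2 => absurd (hl y hy a ha h1 h) h2, fun y hy h1 h2 => absurd (hl y hy a ha h1 h) h2⟩

omit [DecidableEq V] in
theorem leaf_ess {S : Finset V} {l : V} (hl : Leaf G S l) : ∃ p, Clean G c S l p := by
  by_cases h : ∃ a ∈ S, G.Adj l a
  · obtain ⟨a, ha, h⟩ := h
    exact ⟨a, clean_leaf hl ha h⟩
  · exact ⟨l, _, _, fun y hy h1 => absurd ⟨y, hy, h1⟩ h, fun y hy h1 => absurd ⟨y, hy, h1⟩ h⟩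

/-- the only way in which deleting a leaf cleans a branch -/
theorem unlock {S : Finset V} {l : V} (hl : Leaf G S l) {a b : V} (h : Clean G c (S.erase l) a b) (ha : a ∈ S.erase l) :
    Clean G c S a b ∨ ∃ y ∈ S.erase l, G.Adj l y ∧ c y ≠ c l ∧ (∀ z ∈ S.erase l, G.Adj y z → c z = c y) ∧
      ∃ x, Clean G c S y x := by
  induction h with
  | mk a b h1 h2 ih =>
    by_contra hn
    rw [not_or] at hn
    have ch : ∀ y ∈ S, G.Adj a y → y ≠ b → Clean G c S y a := by
      intro y hy h3 h4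
      by_cases h5 : y = l
      · subst h5
        exact clean_leaf hl (Finset.mem_of_mem_erase ha) h3.symm
      · have h6 := Finset.mem_erase.2 ⟨h5, hy⟩
        exact (ih y h6 h3 h4 h6).resolve_right hn.2
    refine hn.1 ⟨_, _, ch, fun y hy h3 h4 h5 z hz h6 h7 => ?_⟩
    by_cases h8 : y = l
    · subst h8
      exact absurd (hl z hz a (Finset.mem_of_mem_erase ha) h6 h3.symm) h7
    have h9 := Finset.mem_erase.2 ⟨h8, hy⟩
    by_cases h10 : z = l
    · subst h10
      by_contra h11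
      refine hn.2 ⟨y, h9, h6.symm, fun h => h11 h.symm, fun w hw h12 => ?_, a, ch y hy h3 h4⟩
      by_cases h13 : w = a
      · rw [h13, h5]
      · exact h2 y h9 h3 h4 h5 w hw h12 h13
    · exact h2 y h9 h3 h4 h5 z (Finset.mem_erase.2 ⟨h10, hz⟩) h6 h7

theorem mono_clean {S : Finset V} {l : V} (hl : Leaf G S l) {y w : V} (h : Clean G c (S.erase l) y w)
    (hy : y ∈ S.erase l) (hc : c y = c l) (h0 : ∀ z ∈ S.erase l, G.Adj y z → z ≠ w → c z = c y) : Clean G c S y w := by
  induction h with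
  | mk y w h1 h2 ih =>
    refine ⟨_, _, fun z hz h3 h4 => ?_, fun z hz h3 h4 h5 t ht h6 h7 => ?_⟩
    · by_cases h5 : z = l
      · subst h5
        exact clean_leaf hl (Finset.mem_of_mem_erase hy) h3.symm
      · have h6 := Finset.mem_erase.2 ⟨h5, hz⟩
        have h7 := h0 z h6 h3 h4
        exact ih z h6 h3 h4 h6 (h7.trans hc) (h2 z h6 h3 h4 h7)
    · by_cases h8 : z = l
      · subst h8
        exact absurd (hl t ht y (Finset.mem_of_mem_erase hy) h6 h3.symm) h7
      by_cases h9 : t = l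
      · rw [h9, h5, hc]
      · exact h2 z (Finset.mem_erase.2 ⟨h8, hz⟩) h3 h4 h5 t (Finset.mem_erase.2 ⟨h9, ht⟩) h6 h7

theorem away_clean (hG : G.IsTree) {S : Finset V} {l a b : V} (h : Clean G c (S.erase l) a b) (hab : G.Adj a b)
    (hd : G.dist l b < G.dist l a) : Clean G c S a b := by
  induction h with
  | mk a b h1 h2 ih =>
    have far : ∀ y, G.Adj a y → y ≠ b → G.dist l a < G.dist l y := by
      intro y h3 h4
      have := hG.dist_ne_of_adj l h3
      by_contra h5
      exact h4 (tow_unique hG h3 hab (by omega) hd)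
    have ne : ∀ y, G.dist l a < G.dist l y → y ≠ l := by
      rintro y h3 rfl
      simp at h3
    refine ⟨_, _, fun y hy h3 h4 => ?_, fun y hy h3 h4 h5 z hz h6 h7 => ?_⟩
    · have := far y h3 h4
      exact ih y (Finset.mem_erase.2 ⟨ne y this, hy⟩) h3 h4 h3.symm this
    · have h8 := far y h3 h4
      refine h2 y (Finset.mem_erase.2 ⟨ne y h8, hy⟩) h3 h4 h5 z (Finset.mem_erase.2 ⟨ne z ?_, hz⟩) h6 h7
      have := hG.dist_ne_of_adj l h6
      by_contra h9
      exact h7 (tow_unique hG h6 h3.symm (by omega) h8)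

omit [DecidableEq V] in
theorem mono_leaf {S : Finset V} {y u : V} (h : Clean G c S y u) (hy : y ∈ S) (hu : u ∈ S) (ha : G.Adj y u)
    (hc : c u = c y) (h0 : ∀ z ∈ S, G.Adj y z → z ≠ u → c z = c y) :
    ∃ l ∈ S, Leaf G S l ∧ c l = c y ∧ ∃ x ∈ S, G.Adj l x ∧ c x = c l := by
  induction h with
  | mk y u h1 h2 ih =>
    by_cases h3 : ∃ z ∈ S, G.Adj y z ∧ z ≠ u
    · obtain ⟨z, hz, h4, h5⟩ := h3
      have h6 := h0 z hz h4 h5
      obtain ⟨l, h7, h8, h9, h10⟩ := ih z hz h4 h5 hz hy h4.symm h6.symm (h2 z hz h4 h5 h6)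
      exact ⟨l, h7, h8, h9.trans h6, h10⟩
    · push Not at h3
      exact ⟨y, hy, fun a ha b hb h4 h5 => (h3 a ha h4).trans (h3 b hb h5).symm, rfl, u, hu, ha, hc⟩

omit [DecidableEq V] in
theorem mem_ess {S : Finset V} {u : V} : u ∈ Ess G c S ↔ u ∈ S ∧ ∃ p, Clean G c S u p := by
  simp [Ess]

def Root (G : SimpleGraph V) (c : V → Bool) (S : Finset V) (r : V) : Prop :=
  ∀ v ∈ Ess G c S, ∀ q, G.Adj v q → G.dist r q < G.dist r v → Clean G c S v q

omit [DecidableEq V] in
theorem root_ess (hG : G.IsTree) {S : Finset V} (hS : Conv G S) {r : V} (hr : r ∈ S) (n : ℕ) :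
    ∀ v ∈ S, ∀ p q, G.dist r v = n → Clean G c S v p → G.Adj v q → G.dist r q < G.dist r v → q ≠ p → r ∈ Ess G c S := by
  induction n using Nat.strong_induction_on with
  | _ n ih =>
    intro v hv p q h1 h2 h3 h4 h5
    have hq := hS v hv r hr q h3 h4
    have h6 := h2.child hq h3 h5
    by_cases h7 : q = r
    · exact mem_ess.2 ⟨hr, v, h7 ▸ h6⟩
    · obtain ⟨q', h8, h9⟩ := tow_exists hG h7
      exact ih _ (by omega) q hq v q' rfl h6 h8 h9 (by rintro rfl; omega)

omit [DecidableEq V] in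
theorem root_of (hG : G.IsTree) {S : Finset V} (hS : Conv G S) {r p : V} (hr : r ∈ S) (h1 : Clean G c S r p)
    (h2 : p ∈ S → G.Adj r p → Clean G c S p r) : Root G c S r := by
  have : ∀ n, ∀ v ∈ S, ∀ q, G.dist r v = n → G.Adj v q → G.dist r q < G.dist r v → Clean G c S v q := by
    intro n
    induction n using Nat.strong_induction_on with
    | _ n ih =>
      intro v hv q h3 h4 h5
      by_cases h6 : q = r
      · subst h6
        by_cases h7 : v = p
        · subst h7; exact h2 hv h4.symm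
        · exact h1.child hv h4.symm h7
      · obtain ⟨q', h8, h9⟩ := tow_exists hG h6
        exact (ih _ (by omega) q (hS v hv r hr q h4 h5) q' rfl h8 h9).child hv h4.symm (by rintro rfl; omega)
  exact fun v hv q => this _ v (mem_ess.1 hv).1 q rfl

theorem exists_root (hG : G.IsTree) {S : Finset V} (hS : Conv G S) (h0 : S.Nonempty) : ∃ r ∈ S, Root G c S r := by
  classical
  by_cases h : ∀ r ∈ S, r ∈ Ess G c S
  swap
  · push Not at h
    obtain ⟨r, hr, h⟩ := h
    refine ⟨r, hr, fun v hv q h1 h2 => ?_⟩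
    obtain ⟨hv, p, hp⟩ := mem_ess.1 hv
    by_contra h3
    exact h (root_ess hG hS hr _ v hv p q rfl hp h1 h2 (by rintro rfl; exact h3 hp))
  by_contra hn
  push Not at hn
  have nx : ∀ r ∈ S, ∃ p ∈ S, G.Adj r p ∧ Clean G c S r p ∧ ¬ Clean G c S p r := by
    intro r hr
    obtain ⟨-, p, hp⟩ := mem_ess.1 (h r hr)
    by_contra h1
    push Not at h1
    exact hn r hr (root_of hG hS hr hp fun h2 h3 => h1 p h2 h3 hp)
  obtain ⟨⟨r, p⟩, h1, h2⟩ := Finset.exists_max_image
    ((S ×ˢ S).filter fun e : V × V => G.Adj e.1 e.2 ∧ Clean G c S e.1 e.2 ∧ ¬ Clean G c S e.2 e.1)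
    (fun e => (S.filter fun v => G.dist v e.1 < G.dist v e.2).card) (by
      obtain ⟨r, hr⟩ := h0
      obtain ⟨p, hp, h1⟩ := nx r hr
      exact ⟨(r, p), by simp [hr, hp, h1]⟩)
  simp only [Finset.mem_filter, Finset.mem_product] at h1 h2
  obtain ⟨q, hq, h3, h4, h5⟩ := nx p h1.1.2
  have h6 := h2 (p, q) ⟨⟨h1.1.2, hq⟩, h3, h4, h5⟩
  dsimp only at h1 h6
  have hqr : q ≠ r := by rintro rfl; exact h1.2.2.2 h4
  refine absurd h6 (not_le.2 (Finset.card_lt_card ⟨fun v hv => ?_, fun h7 => ?_⟩))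
  · rw [Finset.mem_filter] at hv ⊢
    refine ⟨hv.1, ?_⟩
    have := hG.dist_ne_of_adj v h3
    by_contra h7
    exact hqr (tow_unique hG h3 h1.2.1.symm (by omega) hv.2)
  · have h8 := h7 (Finset.mem_filter.2 ⟨h1.1.2, by rw [dist_eq_one_iff_adj.2 h3]; simp⟩)
    simp at h8

end Pool.Agent.H.MP_1304b2_co
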