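import Pool.Agent.H.MP_1304b2_co.A

namespace Pool.Agent.H.MP_1304b2_co

open SimpleGraph

variable {V : Type} [DecidableEq V] {G : SimpleGraph V} {c : V → Bool}

def cnt (c : V → Bool) (P : Bool) (A : Finset V) : ℕ := (A.filter fun u => c u = P).card

omit [DecidableEq V] in
theorem cnt_le {P : Bool} {A : Finset V} (R : V → V → Prop) (h1 : ∀ u ∈ A, c u = P → ∃ y ∈ A, c y ≠ P ∧ R u y)
    (h2 : ∀ u ∈ A, ∀ v ∈ A, c u = P → c v = P → ∀ y, R u y → R v y → u = v) : cnt c P A ≤ cnt c (!P) A := by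
  classical
  choose! f hf using h1
  refine Finset.card_le_card_of_injOn f (fun u hu => ?_) fun u hu v hv h => ?_
  · simp only [Finset.coe_filter, Set.mem_setOf_eq] at hu ⊢
    have := hf u hu.1 hu.2
    exact ⟨this.1, by have := this.2.1; cases P <;> simp_all⟩
  · simp only [Finset.coe_filter, Set.mem_setOf_eq] at hu hv
    exact h2 u hu.1 v hv.1 hu.2 hv.2 (f u) (hf u hu.1 hu.2).2.2 (h ▸ (hf v hv.1 hv.2).2.2)

theorem ess_sub {S : Finset V} {l : V} : (Ess G c S).erase l ⊆ Ess G c (S.erase l) := by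
  intro u hu
  rw [Finset.mem_erase, mem_ess] at hu
  obtain ⟨h1, h2, p, hp⟩ := hu
  exact mem_ess.2 ⟨Finset.mem_erase.2 ⟨h1, h2⟩, p, hp.mono (Finset.erase_subset _ _)⟩

theorem cnt_erase {S : Finset V} {l : V} (hl : l ∈ S) (hL : Leaf G S l) (P : Bool) :
    cnt c P (Ess G c (S.erase l)) + (if c l = P then 1 else 0) =
      cnt c P (Ess G c S) + cnt c P (Ess G c (S.erase l) \ Ess G c S) := by
  have h1 : l ∈ Ess G c S := mem_ess.2 ⟨hl, leaf_ess hL⟩
  have h2 : l ∉ Ess G c (S.erase l) := fun h => by simpa using (mem_ess.1 h).1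
  have h3 : insert l (Ess G c (S.erase l)) = Ess G c S ∪ (Ess G c (S.erase l) \ Ess G c S) := by
    ext u
    simp only [Finset.mem_insert, Finset.mem_union, Finset.mem_sdiff]
    constructor
    · rintro (rfl | h)
      · exact Or.inl h1
      · tauto
    · rintro (h | h)
      · by_cases h4 : u = l
        · exact Or.inl h4
        · exact Or.inr (ess_sub (Finset.mem_erase.2 ⟨h4, h⟩))
      · exact Or.inr h.1
  have h4 : cnt c P (insert l (Ess G c (S.erase l))) = cnt c P (Ess G c (S.erase l)) + (if c l = P then 1 else 0) := by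
    unfold cnt
    rw [Finset.filter_insert]
    split_ifs
    · rw [Finset.card_insert_of_notMem (by simp [h2])]
    · rfl
  rw [← h4, h3]
  unfold cnt
  rw [Finset.filter_union, Finset.card_union_of_disjoint]
  exact Finset.disjoint_filter_filter Finset.disjoint_sdiff

theorem new_le (hG : G.IsTree) {S : Finset V} {l : V} (hL : Leaf G S l) :
    cnt c (c l) (Ess G c (S.erase l) \ Ess G c S) ≤ cnt c (!c l) (Ess G c (S.erase l) \ Ess G c S) := by
  refine cnt_le (fun w y => y ∈ S.erase l ∧ G.Adj w y ∧ Clean G c (S.erase l) y w) (fun w hw hc => ?_)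
    fun w hw v hv _ _ y h1 h2 => ?_
  · rw [Finset.mem_sdiff, mem_ess, mem_ess] at hw
    obtain ⟨⟨h1, p, hp⟩, h2⟩ := hw
    have hwS := Finset.mem_of_mem_erase h1
    have h3 : ∀ q, ¬ Clean G c S w q := fun q hq => h2 ⟨hwS, q, hq⟩
    have h4 : ∃ y ∈ S.erase l, G.Adj w y ∧ y ≠ p ∧ ¬ Clean G c S y w := by
      by_contra h4
      push Not at h4
      refine h3 p ⟨_, _, fun y hy h5 h6 => ?_, fun y hy h5 h6 h7 z hz h8 h9 => ?_⟩
      · by_cases h7 : y = l
        · subst h7; exact clean_leaf hL hwS h5.symm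
        · exact h4 y (Finset.mem_erase.2 ⟨h7, hy⟩) h5 h6
      · by_cases h10 : y = l
        · subst h10; exact absurd (hL z hz w hwS h8 h5.symm) h9
        by_cases h11 : z = l
        · rw [h11, h7, hc]
        · exact hp.col (Finset.mem_erase.2 ⟨h10, hy⟩) h5 h6 h7 (Finset.mem_erase.2 ⟨h11, hz⟩) h8 h9
    obtain ⟨y, hy, h5, h6, h7⟩ := h4
    have h8 := hp.child hy h5 h6
    refine ⟨y, Finset.mem_sdiff.2 ⟨mem_ess.2 ⟨hy, w, h8⟩, fun h9 => ?_⟩, fun h9 => ?_, hy, h5, h8⟩
    · obtain ⟨-, q, hq⟩ := mem_ess.1 h9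
      exact h3 y (hq.child hwS h5.symm (by rintro rfl; exact h7 hq))
    · exact h7 (mono_clean hL h8 hy h9 fun z hz => hp.col hy h5 h6 (h9.trans hc.symm) hz)
  · by_contra hne
    rw [Finset.mem_sdiff, mem_ess, mem_ess] at hw hv
    have a1 := h1.2.2.child hv.1.1 h2.2.1.symm (Ne.symm hne)
    have a2 := h2.2.2.child hw.1.1 h1.2.1.symm hne
    have b1 : ¬ G.dist l y < G.dist l v := fun h =>
      hv.2 ⟨Finset.mem_of_mem_erase hv.1.1, y, away_clean hG a1 h2.2.1 h⟩
    have b2 : ¬ G.dist l y < G.dist l w := fun h =>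
      hw.2 ⟨Finset.mem_of_mem_erase hw.1.1, y, away_clean hG a2 h1.2.1 h⟩
    have := hG.dist_ne_of_adj l h1.2.1
    have := hG.dist_ne_of_adj l h2.2.1
    exact hne (tow_unique (r := l) hG h1.2.1.symm h2.2.1.symm (by omega) (by omega))

theorem good_leaf (hG : G.IsTree) {S : Finset V} (hS : Conv G S) {P : Bool}
    (h : cnt c (!P) (Ess G c S) < cnt c P (Ess G c S)) :
    ∃ l ∈ S, c l = P ∧ Leaf G S l ∧ Ess G c (S.erase l) \ Ess G c S = ∅ := by
  by_contra hn
  push Not at hn
  have un : ∀ l ∈ S, c l = P → Leaf G S l → ∃ y ∈ S.erase l, G.Adj l y ∧ c y ≠ c l ∧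
      (∀ z ∈ S.erase l, G.Adj y z → c z = c y) ∧ ∃ x, Clean G c S y x := by
    intro l hl h1 h2
    obtain ⟨a, ha⟩ := hn l hl h1 h2
    rw [Finset.mem_sdiff, mem_ess, mem_ess] at ha
    obtain ⟨⟨h3, b, hb⟩, h4⟩ := ha
    exact (unlock h2 hb h3).resolve_left fun h5 => h4 ⟨Finset.mem_of_mem_erase h3, b, h5⟩
  have h0 : S.Nonempty := by
    rcases S.eq_empty_or_nonempty with rfl | h0
    · simp [cnt, Ess] at h
    · exact h0
  obtain ⟨r, hr, hroot⟩ := exists_root (c := c) hG hS h0
  refine absurd h (not_lt.2 (cnt_le (fun u y => G.Adj u y ∧ c y ≠ P ∧ y ∈ S ∧ (Leaf G S u ∨ G.dist r u < G.dist r y))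
    (fun u hu hc => ?_) fun u hu v hv h1 h2 y h3 h4 => ?_))
  · obtain ⟨huS, p, hp⟩ := mem_ess.1 hu
    by_cases h1 : Leaf G S u
    · obtain ⟨y, hy, h2, h3, -, h4⟩ := un u huS hc h1
      have := Finset.mem_of_mem_erase hy
      exact ⟨y, mem_ess.2 ⟨this, h4⟩, hc ▸ h3, h2, hc ▸ h3, this, Or.inl h1⟩
    have key : ∀ p, Clean G c S u p → (∀ y, G.Adj u y → y ≠ p → G.dist r u < G.dist r y) →
        ∃ y ∈ Ess G c S, c y ≠ P ∧ G.Adj u y ∧ c y ≠ P ∧ y ∈ S ∧ (Leaf G S u ∨ G.dist r u < G.dist r y) := by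
      intro p hp h2
      have : ∃ y ∈ S, G.Adj u y ∧ y ≠ p := by
        by_contra h3
        push Not at h3
        exact h1 fun a ha b hb h4 h5 => (h3 a ha h4).trans (h3 b hb h5).symm
      obtain ⟨y, hy, h3, h4⟩ := this
      have h5 := hp.child hy h3 h4
      have h6 : c y ≠ P := by
        intro h6
        obtain ⟨l, hl, h7, h8, x, hx, h9, h10⟩ := mono_leaf h5 hy huS h3.symm (hc.trans h6.symm)
          fun z hz => hp.col hy h3 h4 (h6.trans hc.symm) hz
        obtain ⟨y', hy', h11, h12, -⟩ := un l hl (h8.trans h6) h7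
        exact h12 (h7 y' (Finset.mem_of_mem_erase hy') x hx h11 h9 ▸ h10)
      exact ⟨y, mem_ess.2 ⟨hy, u, h5⟩, h6, h3, h6, hy, Or.inr (h2 y h3 h4)⟩
    by_cases h2 : u = r
    · subst h2
      exact key p hp fun y h3 _ => by rw [dist_eq_one_iff_adj.2 h3]; simp
    · obtain ⟨q, h3, h4⟩ := tow_exists hG h2
      refine key q (hroot u hu q h3 h4) fun y h5 h6 => ?_
      have := hG.dist_ne_of_adj r h5
      by_contra h7
      exact h6 (tow_unique hG h5 h3 (by omega) h4)
  · have lf : ∀ u ∈ S, ∀ v ∈ S, c u = P → c v = P → G.Adj u y → G.Adj v y → Leaf G S u → u = v := by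
      intro u hu v hv h1 h2 h5 h6 h7
      by_contra h8
      obtain ⟨y', hy', h9, h10, h11, -⟩ := un u hu h1 h7
      have := h7 y' (Finset.mem_of_mem_erase hy') y h3.2.2.1 h9 h5
      subst this
      exact h3.2.1 ((h11 v (Finset.mem_erase.2 ⟨Ne.symm h8, hv⟩) h6.symm).symm.trans h2)
    have hu' := (mem_ess.1 hu).1
    have hv' := (mem_ess.1 hv).1
    rcases h3.2.2.2 with h5 | h5
    · exact lf u hu' v hv' h1 h2 h3.1 h4.1 h5
    rcases h4.2.2.2 with h6 | h6
    · exact (lf v hv' u hu' h2 h1 h4.1 h3.1 h6).symm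
    · exact tow_unique hG h3.1.symm h4.1.symm h5 h6

/-- the advantage of player `P` -/
noncomputable def adv (G : SimpleGraph V) (c : V → Bool) (P : Bool) (S : Finset V) (j : ℤ) : ℤ :=
  (cnt c P (Ess G c S) : ℤ) - cnt c (!P) (Ess G c S) + if P then j else -j

theorem win_of (hG : G.IsTree) (P : Bool) (n : ℕ) : ∀ S j, Conv G S → S.card + j.natAbs < n →
    (0 ≤ adv G c P S j → Win G c P (!P) S j) ∧ (0 < adv G c P S j → Win G c P P S j) := by
  induction n with
  | zero => intro S j _ h; omega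
  | succ n ih =>
    intro S j hS hn
    constructor
    · intro h
      refine Win.theirs S j ?_
      rintro S' j' (⟨v, hv, h1, h2, rfl, rfl⟩ | ⟨rfl, h1⟩)
      · have := Finset.card_erase_add_one hv
        refine (ih _ _ (hS.erase hG h2) (by omega)).2 ?_
        have e1 := cnt_erase (c := c) hv h2 P
        have e2 := cnt_erase (c := c) hv h2 (!P)
        have e3 := new_le (c := c) hG h2
        rw [h1, Bool.not_not] at e3
        rw [if_pos h1] at e2
        rw [if_neg (by rw [h1]; cases P <;> simp)] at e1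
        unfold adv at *
        omega
      · refine (ih _ _ hS (by omega)).2 ?_
        unfold adv at *
        cases P <;> simp at h1 h ⊢ <;> omega
    · intro h
      by_cases hj : 0 < if P then j else -j
      · refine Win.mine S j S (if P then j - 1 else j + 1) (Or.inr ⟨rfl, ?_⟩) ((ih _ _ hS ?_).1 ?_)
        · cases P <;> simp at hj ⊢ <;> omega
        · cases P <;> simp at hj ⊢ <;> omega
        · unfold adv at *
          cases P <;> simp at hj h ⊢ <;> omega
      · obtain ⟨v, hv, h1, h2, h3⟩ := good_leaf (c := c) (P := P) hG hS (by unfold adv at h; omega)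
        have := Finset.card_erase_add_one hv
        refine Win.mine S j _ j (Or.inl ⟨v, hv, h1, h2, rfl, rfl⟩) ((ih _ _ (hS.erase hG h2) (by omega)).1 ?_)
        have e1 := cnt_erase (c := c) hv h2 P
        have e2 := cnt_erase (c := c) hv h2 (!P)
        rw [if_pos h1, h3] at e1
        rw [if_neg (by rw [h1]; cases P <;> simp), h3] at e2
        have z : ∀ Q, cnt c Q ∅ = 0 := fun Q => by simp [cnt]
        rw [z] at e1 e2
        unfold adv at *
        omega

theorem Win.inv {P t : Bool} {S : Finset V} {j : ℤ} (h : Win G c P t S j) :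
    (t = P ∧ ∃ S' j', Move G c P S j S' j' ∧ Win G c P (!P) S' j') ∨
      (t = !P ∧ ∀ S' j', Move G c (!P) S j S' j' → Win G c P P S' j') := by
  cases h with
  | mine _ _ S' j' h1 h2 => exact Or.inl ⟨rfl, S', j', h1, h2⟩
  | theirs _ _ h => exact Or.inr ⟨rfl, h⟩

theorem Win.not_both {P t : Bool} {S : Finset V} {j : ℤ} (h : Win G c P t S j) : ¬ Win G c (!P) t S j := by
  induction h with
  | mine S j S' j' h1 _ ih =>
    intro h
    rcases h.inv with ⟨h2, -⟩ | ⟨-, h2⟩
    · simp at h2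
    · exact ih (h2 S' j' (by simpa using h1))
  | theirs S j _ ih =>
    intro h
    rcases h.inv with ⟨-, S', j', h2, h3⟩ | ⟨h2, -⟩
    · exact ih S' j' h2 (by simpa using h3)
    · simp at h2

theorem main [Fintype V] (hG : G.IsTree) (m : ℤ) : HasValue G c Finset.univ m ↔
    m = (cnt c true (Ess G c Finset.univ) : ℤ) - cnt c false (Ess G c Finset.univ) := by
  have hS : Conv G Finset.univ := fun _ _ _ _ _ _ _ => Finset.mem_univ _
  have w := fun P => win_of (c := c) hG P _ Finset.univ (-m) hS (Nat.lt_succ_self _)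
  have a := w true
  have b := w false
  simp only [adv, Bool.not_true, Bool.not_false, if_true, Bool.false_eq_true, if_false] at a b
  constructor
  · rintro ⟨h1, h2⟩
    have h3 : ¬ _ := fun h => (a.2 h).not_both h2
    have h4 : ¬ _ := fun h => (b.2 h).not_both h1
    omega
  · intro h
    exact ⟨a.1 (by omega), b.1 (by omega)⟩

end Pool.Agent.H.MP_1304b2_co
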