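import Mathlib

namespace Pool.Agent.H.MP_1304b2_co

variable {V : Type} [DecidableEq V] (G : SimpleGraph V) (c : V → Bool)

/-- `v` has degree at most one in the tree induced on `S` -/
def Leaf (S : Finset V) (v : V) : Prop := ∀ a ∈ S, ∀ b ∈ S, G.Adj v a → G.Adj v b → a = b

/-- a move of player `P` (`true` = White = Left) in the sum of the leaf-removal game on `S` and the integer `j` -/
def Move (P : Bool) (S : Finset V) (j : ℤ) (S' : Finset V) (j' : ℤ) : Prop :=
  (∃ v ∈ S, c v = P ∧ Leaf G S v ∧ S' = S.erase v ∧ j' = j) ∨
  (S' = S ∧ (P = true ∧ 0 < j ∧ j' = j - 1 ∨ P = false ∧ j < 0 ∧ j' = j + 1))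

/-- `Win P t S j`: player `P` wins that sum under normal play when player `t` is to move -/
inductive Win (P : Bool) : Bool → Finset V → ℤ → Prop
  | mine (S : Finset V) (j : ℤ) (S' : Finset V) (j' : ℤ) : Move G c P S j S' j' → Win P (!P) S' j' → Win P P S j
  | theirs (S : Finset V) (j : ℤ) : (∀ S' j', Move G c (!P) S j S' j' → Win P P S' j') → Win P (!P) S j

/-- the leaf-removal game on `S` equals the integer `m`: in its sum with `-m` the second player wins -/
def HasValue (S : Finset V) (m : ℤ) : Prop := Win G c true false S (-m) ∧ Win G c false true S (-m)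

/-- the branch of the tree on `S` at `u` away from `p`, rooted at `u`, contains no blocking triple -/
inductive Clean (S : Finset V) : V → V → Prop
  | mk (u p : V) : (∀ y ∈ S, G.Adj u y → y ≠ p → Clean S y u) →
      (∀ y ∈ S, G.Adj u y → y ≠ p → c y = c u → ∀ z ∈ S, G.Adj y z → z ≠ u → c z = c y) → Clean S u p

open Classical in
/-- the essential vertices -/
noncomputable def Ess (S : Finset V) : Finset V := S.filter fun u => ∃ p, Clean G c S u p

end Pool.Agent.H.MP_1304b2_co
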